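import Mathlib

/-!
# Surjunctivity is a local property

Cellular automata over a monoid `M`: `x ↦ (m ↦ μ (i ↦ x (m * t i)))`, where `t : I → M` is a finite
family and `μ : (I → A) → A`.
-/

set_option autoImplicit false

namespace Pool.Agent.H88.Surj

open Filter

/-- The cellular automaton with memory `t` and local rule `μ`. -/
def ca {M A I : Type*} [Mul M] (t : I → M) (μ : (I → A) → A) (x : M → A) (m : M) : A :=
  μ fun i => x (m * t i)

/-- Compactness of the space of configurations: a family of configurations has a cluster point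
along an ultrafilter. -/
lemma exists_limit {M A T : Type*} [Finite A] (U : Ultrafilter T) (X : T → M → A) :
    ∃ x : M → A, ∀ m : M, ∀ᶠ T in (U : Filter T), X T m = x m := by
  have h : ∀ m : M, ∃ a : A, ∀ᶠ T in (U : Filter T), X T m = a := by
    intro m
    by_contra hcon
    have h2 : ∀ a : A, ∀ᶠ T in (U : Filter T), ¬ X T m = a := fun a =>
      Ultrafilter.eventually_not.2 (not_exists.1 hcon a)
    obtain ⟨T, hT2⟩ := (eventually_all.2 h2).exists
    exact hT2 _ rfl
  choose x hx using h
  exact ⟨x, hx⟩

/-- The inverse of an injective cellular automaton is determined locally. -/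
lemma exists_window {M A I : Type*} [Monoid M] [Finite A] [Finite I] (t : I → M)
    (μ : (I → A) → A) (hinj : Function.Injective (ca t μ)) :
    ∃ S' : Finset M, ∀ x x' : M → A, (∀ m ∈ S', ca t μ x m = ca t μ x' m) → x 1 = x' 1 := by
  by_contra hcon
  push Not at hcon
  choose X X' hX hne using hcon
  let U : Ultrafilter (Finset M) := Ultrafilter.of atTop
  have hU : (U : Filter (Finset M)) ≤ atTop := Ultrafilter.of_le _
  obtain ⟨x, hx⟩ := exists_limit U X
  obtain ⟨x', hx'⟩ := exists_limit U X'
  have hxx : x = x' := by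
    apply hinj
    funext m
    have h1 : ∀ᶠ T in (U : Filter (Finset M)), ∀ i, X T (m * t i) = x (m * t i) :=
      eventually_all.2 fun i => hx _
    have h2 : ∀ᶠ T in (U : Filter (Finset M)), ∀ i, X' T (m * t i) = x' (m * t i) :=
      eventually_all.2 fun i => hx' _
    have h3 : ∀ᶠ T in (U : Filter (Finset M)), m ∈ T := by
      apply hU
      filter_upwards [eventually_ge_atTop ({m} : Finset M)] with T hT
      exact hT (Finset.mem_singleton_self m)
    obtain ⟨T, hT1, hT2, hT3⟩ := (h1.and (h2.and h3)).exists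
    have h4 := hX T m hT3
    unfold ca at h4 ⊢
    simp only [hT1, hT2] at h4
    exact h4
  obtain ⟨T, hT1, hT2⟩ := ((hx 1).and (hx' 1)).exists
  exact hne T (by rw [hT1, hT2, hxx])

/-- **Surjunctivity is local.** Let `ca t μ` be injective on `M → A`. Suppose that every injective
cellular automaton over the submonoid generated by a finite subset containing the memory is
surjective. Then `ca t μ` is surjective. -/
theorem surjective_of_local {M A I : Type*} [Monoid M] [Finite A] [Finite I] (t : I → M)
    (μ : (I → A) → A) (hinj : Function.Injective (ca t μ))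
    (hloc : ∀ F : Finset M, ∀ t' : I → Submonoid.closure (F : Set M),
      Function.Injective (ca t' μ) → Function.Surjective (ca t' μ)) :
    Function.Surjective (ca t μ) := by
  classical
  obtain ⟨S', hS'⟩ := exists_window t μ hinj
  intro y
  have : Nonempty A := ⟨y 1⟩
  -- the local inverse
  obtain ⟨ν, hν⟩ : ∃ ν : (S' → A) → A, ∀ x : M → A, ν (fun s => ca t μ x s.1) = x 1 := by
    refine ⟨fun p => if h : ∃ x : M → A, ∀ s : S', ca t μ x s.1 = p s then h.choose 1
      else Classical.arbitrary A, fun x => ?_⟩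
    have hex : ∃ x' : M → A, ∀ s : S', ca t μ x' s.1 = ca t μ x s.1 := ⟨x, fun _ => rfl⟩
    beta_reduce
    rw [dif_pos hex]
    exact hS' _ _ fun m hm => hex.choose_spec ⟨m, hm⟩
  have hν' : ∀ (x : M → A) (m : M), ν (fun s => ca t μ x (m * s.1)) = x m := by
    intro x m
    have := hν (fun n => x (m * n))
    unfold ca at this ⊢
    simp only [mul_one] at this
    rw [← this]
    simp only [mul_assoc]
  have := Fintype.ofFinite I
  let F : Finset M := S' ∪ Finset.univ.image t
  let N : Submonoid M := Submonoid.closure (F : Set M)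
  have htN : ∀ i, t i ∈ N := fun i => Submonoid.subset_closure (by simp [F])
  have hsN : ∀ s : S', s.1 ∈ N := fun s => Submonoid.subset_closure (by simp [F])
  let t' : I → N := fun i => ⟨t i, htN i⟩
  -- extension of configurations
  let ext : (N → A) → M → A := fun w m => if h : m ∈ N then w ⟨m, h⟩ else Classical.arbitrary A
  have hext : ∀ (w : N → A) (n : N), ext w n = w n := fun w n => by simp [ext]
  have hca : ∀ (w : N → A) (n : N), ca t μ (ext w) n = ca t' μ w n := by
    intro w n
    unfold ca
    congr 1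
    funext i
    have := hext w (n * t' i)
    simpa [t'] using this
  have hsurj : Function.Surjective (ca t' μ) := by
    apply hloc F t'
    intro w w' hw
    funext n
    rw [← hext w n, ← hext w' n, ← hν' (ext w) n, ← hν' (ext w') n]
    congr 1
    funext s
    have e1 := hca w (n * ⟨s.1, hsN s⟩)
    have e2 := hca w' (n * ⟨s.1, hsN s⟩)
    rw [hw] at e1
    have e3 := e1.trans e2.symm
    simpa using e3
  refine ⟨fun m => ν fun s => y (m * s.1), ?_⟩
  funext m
  obtain ⟨w, hw⟩ := hsurj fun n => y (m * n.1)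
  have key : ∀ n : N, ν (fun s : S' => y (m * n.1 * s.1)) = w n := by
    intro n
    rw [← hext w n, ← hν' (ext w) n]
    congr 1
    funext s
    have e1 := hca w (n * ⟨s.1, hsN s⟩)
    rw [hw] at e1
    simpa [mul_assoc] using e1.symm
  have h1 := congrFun hw 1
  unfold ca at h1 ⊢
  simp only [one_mul, Submonoid.coe_one, mul_one] at h1
  rw [← h1]
  congr 1
  funext i
  exact key (t' i)

/-- Residually finite monoids are surjunctive. -/
theorem residuallyFinite {N A I : Type*} [Monoid N] [Finite A] [Finite I]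
    (hN : ∀ Ω : Finset N, ∃ (Q : Type) (_ : Monoid Q) (_ : Finite Q) (φ : N →* Q),
      Function.Surjective φ ∧ Set.InjOn φ Ω) (t : I → N)
    (μ : (I → A) → A) (hinj : Function.Injective (ca t μ)) : Function.Surjective (ca t μ) := by
  classical
  intro y
  have : Nonempty A := ⟨y 1⟩
  have hΩ : ∀ Ω : Finset N, ∃ w : N → A, ∀ n ∈ Ω, ca t μ w n = y n := by
    intro Ω
    obtain ⟨Q, _, _, φ, hφ, hinjφ⟩ := hN Ω
    have hcomm : ∀ (v : Q → A) (n : N), ca t μ (v ∘ φ) n = ca (fun i => φ (t i)) μ v (φ n) := by
      intro v n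
      unfold ca
      simp
    have hQinj : Function.Injective (ca (fun i => φ (t i)) μ : (Q → A) → Q → A) := by
      intro v v' hv
      have h1 : v ∘ φ = v' ∘ φ := by
        apply hinj
        funext n
        rw [hcomm, hcomm, hv]
      funext q
      obtain ⟨n, rfl⟩ := hφ q
      exact congrFun h1 n
    have hQsurj := Finite.surjective_of_injective hQinj
    let v : Q → A := fun q => if h : ∃ n ∈ Ω, φ n = q then y h.choose else Classical.arbitrary A
    obtain ⟨u, hu⟩ := hQsurj v
    refine ⟨u ∘ φ, fun n hn => ?_⟩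
    rw [hcomm, hu]
    have hex : ∃ n' ∈ Ω, φ n' = φ n := ⟨n, hn, rfl⟩
    have h2 : hex.choose = n := hinjφ hex.choose_spec.1 hn hex.choose_spec.2
    show (if h : ∃ n' ∈ Ω, φ n' = φ n then y h.choose else Classical.arbitrary A) = y n
    rw [dif_pos hex, h2]
  choose W hW using hΩ
  let U : Ultrafilter (Finset N) := Ultrafilter.of atTop
  have hU : (U : Filter (Finset N)) ≤ atTop := Ultrafilter.of_le _
  obtain ⟨w, hw⟩ := exists_limit U W
  refine ⟨w, ?_⟩
  funext n
  have h1 : ∀ᶠ T in (U : Filter (Finset N)), ∀ i, W T (n * t i) = w (n * t i) :=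
    eventually_all.2 fun i => hw _
  have h3 : ∀ᶠ T in (U : Filter (Finset N)), n ∈ T := by
    apply hU
    filter_upwards [eventually_ge_atTop ({n} : Finset N)] with T hT
    exact hT (Finset.mem_singleton_self n)
  obtain ⟨T, hT1, hT3⟩ := (h1.and h3).exists
  rw [← hW T n hT3]
  unfold ca
  simp only [hT1]

/-- Two elements of a finitely generated commutative monoid are separated by a homomorphism to a
finite monoid. -/
lemma exists_separating {N : Type} [CommMonoid N] [Monoid.FG N] {a b : N} (hab : a ≠ b) :
    ∃ (Q : Type) (_ : CommMonoid Q) (_ : Finite Q) (φ : N →* Q), φ a ≠ φ b := by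
  classical
  let k := ZMod 2
  have : Fact (Nat.Prime 2) := ⟨Nat.prime_two⟩
  let R := MonoidAlgebra k N
  have : Algebra.FiniteType k R := inferInstance
  have : IsNoetherianRing R := Algebra.FiniteType.isNoetherianRing k R
  let f : R := MonoidAlgebra.of k N a - MonoidAlgebra.of k N b
  have hf : f ≠ 0 := by
    intro h
    apply hab
    exact MonoidAlgebra.of_injective (sub_eq_zero.1 h)
  -- a maximal ideal containing the annihilator of `f`
  have hann : Ideal.torsionOf R R f ≠ ⊤ := by
    intro h
    have h1 : (1 : R) ∈ Ideal.torsionOf R R f := h ▸ Submodule.mem_top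
    rw [Ideal.mem_torsionOf_iff, one_smul] at h1
    exact hf h1
  obtain ⟨𝔪, hmax, hle⟩ := Ideal.exists_le_maximal _ hann
  have hpow : ∃ n : ℕ, f ∉ 𝔪 ^ n := by
    by_contra hcon
    push Not at hcon
    have h1 : f ∈ (⨅ i : ℕ, 𝔪 ^ i • ⊤ : Submodule R R) := by
      simp only [Submodule.mem_iInf]
      intro i
      simpa using hcon i
    obtain ⟨r, hr⟩ := (𝔪.mem_iInf_smul_pow_eq_bot_iff f).1 h1
    have h2 : (1 - (r : R)) ∈ Ideal.torsionOf R R f := by
      rw [Ideal.mem_torsionOf_iff, sub_smul, one_smul]
      exact sub_eq_zero.2 hr.symm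
    have h3 : (1 : R) ∈ 𝔪 := by
      have := 𝔪.add_mem (hle h2) r.2
      simpa using this
    exact hmax.ne_top ((Ideal.eq_top_iff_one _).2 h3)
  obtain ⟨n, hn⟩ := hpow
  have : Finite (R ⧸ 𝔪) := by
    let _ : Field (R ⧸ 𝔪) := Ideal.Quotient.field 𝔪
    have : Algebra.FiniteType k (R ⧸ 𝔪) := inferInstance
    have h5 : Module.Finite k (R ⧸ 𝔪) := finite_of_finite_type_of_isJacobsonRing k (R ⧸ 𝔪)
    exact Module.finite_of_finite k
  have : Finite (R ⧸ 𝔪 ^ n) := Ideal.finite_quotient_pow (IsNoetherian.noetherian 𝔪) n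
  refine ⟨R ⧸ 𝔪 ^ n, inferInstance, inferInstance,
    ((Ideal.Quotient.mk (𝔪 ^ n)) : R →* (R ⧸ 𝔪 ^ n)).comp (MonoidAlgebra.of k N), ?_⟩
  intro h
  apply hn
  rw [← Ideal.Quotient.eq_zero_iff_mem, map_sub, sub_eq_zero]
  exact h

/-- Finitely generated commutative monoids are residually finite. -/
lemma fg_residuallyFinite {N : Type} [CommMonoid N] [Monoid.FG N] (Ω : Finset N) :
    ∃ (Q : Type) (_ : Monoid Q) (_ : Finite Q) (φ : N →* Q),
      Function.Surjective φ ∧ Set.InjOn φ Ω := by
  classical
  have h : ∀ p : {p : N × N // p.1 ≠ p.2}, ∃ (Q : Type) (_ : CommMonoid Q) (_ : Finite Q)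
      (φ : N →* Q), φ p.1.1 ≠ φ p.1.2 := fun p => exists_separating p.2
  choose Q iQ iF φ hφ using h
  let J := {p : {p : N × N // p.1 ≠ p.2} // p.1 ∈ Ω ×ˢ Ω}
  have : Finite J := by
    have : Finite {p : N × N // p ∈ Ω ×ˢ Ω} := inferInstance
    exact Finite.of_injective (fun p : J => (⟨p.1.1, p.2⟩ : {p : N × N // p ∈ Ω ×ˢ Ω}))
      fun p q hpq => by
        apply Subtype.ext
        apply Subtype.ext
        simpa using hpq
  let P := ∀ j : J, Q j.1
  let ψ : N →* P := MonoidHom.pi fun j => φ j.1
  have : Finite P := Pi.finite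
  refine ⟨MonoidHom.mrange ψ, inferInstance, inferInstance, ψ.mrangeRestrict,
    ψ.mrangeRestrict_surjective, ?_⟩
  intro a ha b hb hab
  by_contra hne
  have h1 : ψ a = ψ b := congrArg Subtype.val hab
  have h2 := congrFun h1 ⟨⟨(a, b), hne⟩, by simpa using ⟨ha, hb⟩⟩
  exact hφ ⟨(a, b), hne⟩ h2

/-- Commutative monoids are surjunctive. -/
theorem commutative {M : Type} {A I : Type*} [CommMonoid M] [Finite A] [Finite I]
    (t : I → M) (μ : (I → A) → A) (hinj : Function.Injective (ca t μ)) :
    Function.Surjective (ca t μ) := by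
  apply surjective_of_local t μ hinj
  intro F t' h'
  exact residuallyFinite (fun Ω => fg_residuallyFinite Ω) t' μ h'

/-- Locally finite monoids are surjunctive. -/
theorem locallyFinite {M A I : Type*} [Monoid M] [Finite A] [Finite I]
    (hM : ∀ s : Finset M, (Submonoid.closure (s : Set M) : Set M).Finite) (t : I → M)
    (μ : (I → A) → A) (hinj : Function.Injective (ca t μ)) : Function.Surjective (ca t μ) := by
  apply surjective_of_local t μ hinj
  intro F t' h'
  have : Finite (Submonoid.closure (F : Set M)) := (hM F).to_subtype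
  exact Finite.surjective_of_injective h'

end Pool.Agent.H88.Surj
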